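import Pool.Agent.J6H13.CP.Main

/-!
# One third of all `d`: many exact blocks of consecutive primes in which `q d` is a difference, with every
# number of primes in between

Let `q` be even and `a` coprime to `q`. For one third of all `d` (in every long initial interval) and for
EVERY `r ≤ k` a positive proportion, independent of `q`, `a`, `d` and `H`, of the patterns
`{0, d, t_1, ..., t_k}` with `|t_i| ≤ H` and exactly `r` of the `t_i` between `0` and `d`, multiplied by `q`,
are realised as consecutive primes, by primes in the class of `a` modulo `q`, and already up to `x` for every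
large `x`. In particular `p_(n+r+1) - p_n = q d` for infinitely many `n`, for all `r ≤ k` at the same time.

Proof. The coloured Maynard-Tao theorem (`Pool.Agent.Y827.HN.patR`: more than `m` of `4 m` classes of forms are
hit) is applied to positions in four groups of `m = 4 k + 3` classes. If the set of the bad `d` has density
more than `2 / 3` there are many quadruples with all six differences bad (`Pool.Agent.TH899.UG.TD.quad`), hence
(colouring the six differences by a number `r` for which they are bad) many boxes of such configurations, and
almost all of them contain none of the few realised patterns, by an averaging argument. For the set `P` of the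
positions which are prime for many `n` there are two neighbouring nonempty groups with at least `k + 2`
elements; a block of consecutive elements of `P` across their boundary contains two elements of different
groups with exactly `r` elements in between, for the number `r` prescribed for these two groups.
-/

set_option autoImplicit false

namespace Pool.Agent.J6H13.Held.OneThirdExactBlocks

open Finset

/-- the pattern `{0, d, t_1, ..., t_k}` -/
def shifts {k : ℕ} (d : ℕ) (t : Fin k → ℤ) : Finset ℤ := insert 0 (insert (d : ℤ) (univ.image t))

/-- the integers `n + q h`, `h ∈ S`, are consecutive primes: of all the integers between the smallest and the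
largest of them exactly these are primes -/
def Consecutive (q n : ℕ) (S : Finset ℤ) : Prop :=
  ∀ y : ℤ, (∃ h ∈ S, (q : ℤ) * h ≤ y) → (∃ h ∈ S, y ≤ q * h) →
    (((n : ℤ) + y).toNat.Prime ↔ ∃ h ∈ S, y = q * h)

open Classical in
/-- the number of the `1 ≤ n ≤ x`, `n ≡ a (mod q)`, such that `n + q h`, `h ∈ {0, d, t_1, ..., t_k}`, are
consecutive primes -/
noncomputable def blocks {k : ℕ} (q a d : ℕ) (t : Fin k → ℤ) (x : ℕ) : ℕ :=
  ((Icc 1 x).filter (fun n : ℕ => n ≡ a [MOD q] ∧ Consecutive q n (shifts d t))).card

open Classical in
/-- the vectors `t` in `[-H, H] ^ k` with different coordinates `≠ 0, d`, exactly `r` of them between `0` and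
`d`, such that for at least `x / (log x) ^ C` of the `n ≤ x`, `n ≡ a (mod q)`, the numbers `n + q h`,
`h ∈ {0, d, t_1, ..., t_k}`, are consecutive primes -/
noncomputable def exactTuples (k q a C H x r d : ℕ) : Finset (Fin k → ℤ) :=
  (Fintype.piFinset (fun _ : Fin k => Icc (-(H : ℤ)) H)).filter (fun t => Function.Injective t ∧
    (∀ i, t i ≠ 0 ∧ t i ≠ d) ∧ (univ.filter (fun i => 0 < t i ∧ t i < d)).card = r ∧
    (x : ℝ) / Real.log x ^ C ≤ (blocks q a d t x : ℝ))

open Classical in
/-- the vectors `t` in `[-H, H] ^ k` with different coordinates `≠ 0, d`, exactly `r` of them between `0` and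
`d`, such that for infinitely many `n ≡ a (mod q)` the numbers `n + q h`, `h ∈ {0, d, t_1, ..., t_k}`, are
consecutive primes -/
noncomputable def exactTuplesInf (k q a H r d : ℕ) : Finset (Fin k → ℤ) :=
  (Fintype.piFinset (fun _ : Fin k => Icc (-(H : ℤ)) H)).filter (fun t => Function.Injective t ∧
    (∀ i, t i ≠ 0 ∧ t i ≠ d) ∧ (univ.filter (fun i => 0 < t i ∧ t i < d)).card = r ∧
      {n : ℕ | n ≡ a [MOD q] ∧ Consecutive q n (shifts d t)}.Infinite)

open Classical in
/-- For all `k` and `ε > 0` there are `c > 0` and `L` such that for every even `q`, every `a` coprime to `q`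
and every `H ≥ L`:
* there are `C` and `X₀` such that for every `x ≥ X₀` at least `(1 / 3 - ε) H` of the `d ≤ H` have for every
  `r ≤ k` at least `c H ^ k` vectors in `exactTuples k q a C H x r d`;
* at least `(1 / 3 - ε) H` of the `d ≤ H` have for every `r ≤ k` at least `c H ^ k` vectors in
  `exactTuplesInf k q a H r d`. -/
theorem result (k : ℕ) (ε : ℝ) (hε : 0 < ε) : ∃ c : ℝ, 0 < c ∧ ∃ L : ℕ, ∀ q a : ℕ, 1 ≤ q → Even q →
    Nat.Coprime a q → ∀ H : ℕ, L ≤ H →
      (∃ C X₀ : ℕ, ∀ x : ℕ, X₀ ≤ x → (1 / 3 - ε) * (H : ℝ) ≤
        (((Icc 1 H).filter (fun d : ℕ => ∀ r ≤ k, c * (H : ℝ) ^ k ≤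
          ((exactTuples k q a C H x r d).card : ℝ))).card : ℝ)) ∧
      (1 / 3 - ε) * (H : ℝ) ≤ (((Icc 1 H).filter (fun d : ℕ => ∀ r ≤ k, c * (H : ℝ) ^ k ≤
          ((exactTuplesInf k q a H r d).card : ℝ))).card : ℝ) :=
  Pool.Agent.J6H13.CP.main k ε hε

end Pool.Agent.J6H13.Held.OneThirdExactBlocks
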